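import Pool.Agent.P.MP_7b7e09_gt.Core

/-!
The critical cardinality of the polarized partition property is the minimum of d and u.
-/

open Filter Set Cardinal

namespace Pool.Agent.P.MP_7b7e09_gt

lemma mk_finite_subsets_le {α : Type} [Infinite α] : #{E : Set α // E.Finite} ≤ #α := by
  classical
  rw [← Cardinal.mk_finset_of_infinite α]
  refine Cardinal.mk_le_of_surjective (f := fun s : Finset α => (⟨(s : Set α), s.finite_toSet⟩ :
    {E : Set α // E.Finite})) ?_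
  rintro ⟨E, hE⟩
  exact ⟨hE.toFinset, Subtype.ext hE.coe_toFinset⟩

lemma not_dominating_of_lt {D : Set (ℕ → ℕ)} (hD : #D < dominatingNumber) :
    ∃ h : ℕ → ℕ, ∀ g ∈ D, ∃ᶠ n in Filter.atTop, g n < h n := by
  by_contra H
  push Not at H
  have : dominatingNumber ≤ #D := by
    refine csInf_le' ⟨D, fun h => ?_, rfl⟩
    obtain ⟨g, hg, hg2⟩ := H h
    exact ⟨g, hg, by simpa using hg2⟩
  exact absurd hD (not_lt.2 this)

lemma not_base_of_lt {B : Set (Set ℕ)} (hB : #B < ultrafilterNumber) (W : Ultrafilter ℕ)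
    (hW : ∀ n : ℕ, {n} ∉ W) (hBW : ∀ b ∈ B, b ∈ W) : ∃ a ∈ W, ∀ b ∈ B, ¬ b ⊆ a := by
  by_contra H
  push Not at H
  have : ultrafilterNumber ≤ #B := csInf_le' ⟨B, ⟨W, hW, hBW, H⟩, rfl⟩
  exact absurd hB (not_lt.2 this)

theorem sel_of_lt {X : Set ℝ} (hd : #X < dominatingNumber) (hu : #X < ultrafilterNumber) :
    Sel X := by
  classical
  intro u v A B _ _ hA hB h1 h2 hu0
  have hinf : Infinite X := by
    by_contra h
    have : Finite X := not_infinite_iff_finite.1 h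
    obtain ⟨q, n, -, -, -, hn⟩ := h1 Set.univ Set.finite_univ 0
    exact hu0 n (Set.univ_subset_iff.1 hn)
  let Good : Set X → ℕ → ℕ → Prop := fun E p q => Hit u A E p q ∧ Hit v B E p q
  have hGm : ∀ {E E' : Set X} {p q p' q' : ℕ}, Good E p q → E' ⊆ E → p' ≤ p → q ≤ q' →
      Good E' p' q' := fun h a b c => ⟨h.1.mono hA a b c, h.2.mono hB a b c⟩
  have hG : ∀ E : {E : Set X // E.Finite}, ∀ p, ∃ q, Good E.1 p q := by
    intro E p
    obtain ⟨q, hq⟩ := h1 E.1 E.2 p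
    obtain ⟨q', hq'⟩ := h2 E.1 E.2 p
    exact ⟨max q q', hq.mono hA le_rfl le_rfl (le_max_left _ _),
      hq'.mono hB le_rfl le_rfl (le_max_right _ _)⟩
  choose g hg using hG
  obtain ⟨h, hh⟩ := not_dominating_of_lt
    (D := Set.range (fun E : {E : Set X // E.Finite} => fun n => g E (g E n)))
    (lt_of_le_of_lt (Cardinal.mk_range_le.trans mk_finite_subsets_le) hd)
  let H : ℕ → ℕ := fun n => (Finset.range (n + 1)).sup h + n + 1
  have hH : ∀ n m, n ≤ m → h n ≤ H m := by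
    intro n m hnm
    have : h n ≤ (Finset.range (m + 1)).sup h :=
      Finset.le_sup (f := h) (Finset.mem_range.2 (by omega))
    simp only [H]; omega
  let p : ℕ → ℕ := fun i => H^[i] 0
  have hp : ∀ i, p (i + 1) = H (p i) := fun i => Function.iterate_succ_apply' H i 0
  have hps : StrictMono p := strictMono_nat_of_lt_succ (fun i => by rw [hp]; simp only [H]; omega)
  have hT : ∀ E : {E : Set X // E.Finite}, ∀ N, ∃ i, N ≤ i ∧ Good E.1 (p i) (p (i + 1)) := by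
    intro E N
    have := hh _ ⟨E, rfl⟩
    rw [Filter.frequently_atTop] at this
    obtain ⟨n, hn, hn2⟩ := this (p N)
    have hex : ∃ i, n < p (i + 1) := ⟨n, lt_of_lt_of_le (Nat.lt_succ_self n) (hps.id_le (n + 1))⟩
    let i := Nat.find hex
    have hi : n < p (i + 1) := Nat.find_spec hex
    have hi2 : p i ≤ n := by
      rcases Nat.eq_zero_or_pos i with h0 | h0
      · rw [h0]; exact Nat.zero_le n
      · have := Nat.find_min hex (m := i - 1) (by omega)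
        rw [show i - 1 + 1 = i by omega] at this
        exact not_lt.1 this
    have hNi : N ≤ i := by
      by_contra hc
      have : p (i + 1) ≤ p N := hps.monotone (by omega)
      omega
    by_cases hc : g E n ≤ p (i + 1)
    · exact ⟨i, hNi, hGm (hg E n) le_rfl hi2 hc⟩
    · refine ⟨i + 1, by omega, hGm (hg E (g E n)) le_rfl (by omega) ?_⟩
      rw [hp (i + 1)]
      exact hn2.le.trans (hH _ _ hi.le)
  let T : {E : Set X // E.Finite} × ℕ → Set ℕ :=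
    fun z => {i | z.2 ≤ i ∧ Good z.1.1 (p i) (p (i + 1))}
  let Φ : Filter ℕ := ⨅ z, 𝓟 (T z)
  have : Nonempty {E : Set X // E.Finite} := ⟨⟨∅, Set.finite_empty⟩⟩
  have hΦ : Φ.NeBot := by
    refine Filter.iInf_neBot_of_directed' ?_ ?_
    · intro a b
      refine ⟨(⟨a.1.1 ∪ b.1.1, a.1.2.union b.1.2⟩, max a.2 b.2), ?_, ?_⟩
      · exact Filter.principal_mono.2 (fun n hn => ⟨(le_max_left _ _).trans hn.1,
          hGm hn.2 Set.subset_union_left le_rfl le_rfl⟩)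
      · exact Filter.principal_mono.2 (fun n hn => ⟨(le_max_right _ _).trans hn.1,
          hGm hn.2 Set.subset_union_right le_rfl le_rfl⟩)
    · intro z
      exact Filter.principal_neBot_iff.2 (hT z.1 z.2)
  let W : Ultrafilter ℕ := Ultrafilter.of Φ
  have hW : ∀ z, T z ∈ W := fun z =>
    Ultrafilter.of_le Φ (Filter.mem_iInf_of_mem z (Filter.mem_principal_self _))
  have hcard : #(Set.range T) < ultrafilterNumber := by
    refine lt_of_le_of_lt (Cardinal.mk_range_le.trans ?_) hu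
    rw [Cardinal.mk_prod, Cardinal.lift_id, Cardinal.lift_id, Cardinal.mk_nat]
    calc #{E : Set X // E.Finite} * ℵ₀ ≤ #X * #X :=
          mul_le_mul' mk_finite_subsets_le (Cardinal.aleph0_le_mk X)
      _ = #X := Cardinal.mul_eq_self (Cardinal.aleph0_le_mk X)
  obtain ⟨a, ha, ha2⟩ := not_base_of_lt hcard W (by
    intro n hn
    obtain ⟨m, hm1, hm2⟩ := Filter.nonempty_of_mem
      (Filter.inter_mem hn (hW (⟨∅, Set.finite_empty⟩, n + 1)))
    have h3 : m = n := hm1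
    have h4 : n + 1 ≤ m := hm2.1
    omega) (by rintro _ ⟨z, rfl⟩; exact hW z)
  refine ⟨p, hps.monotone, a, fun E hE => ⟨?_, ?_⟩⟩
  · obtain ⟨i, hi1, hi2⟩ := Filter.nonempty_of_mem (Filter.inter_mem ha (hW (⟨E, hE⟩, 0)))
    exact ⟨i, hi1, hi2.2.1⟩
  · obtain ⟨i, hi1, hi2⟩ := Set.not_subset.1 (ha2 _ ⟨(⟨E, hE⟩, 0), rfl⟩)
    exact ⟨i, hi2, hi1.2.2⟩

/-- Realise a family of subsets of a countable set as a set of reals. -/
lemma exists_realisation {ι κ : Type} [Countable κ] (c : ι → κ → Prop) :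
    ∃ X : Set ℝ, ∃ φ : ι → X, Function.Surjective φ ∧ ∃ O : κ → Set X, (∀ k, IsOpen (O k)) ∧
      ∀ i k, φ i ∈ O k ↔ c i k := by
  classical
  obtain ⟨e, he⟩ := exists_injective_nat κ
  obtain ⟨f, -, hf, hfi⟩ := (PerfectSpace.univ_perfect (α := ℝ)).exists_nat_bool_injection Set.univ_nonempty
  let w : ι → ℕ → Bool := fun i n => decide (∃ k, e k = n ∧ c i k)
  refine ⟨Set.range (fun i => f (w i)), fun i => ⟨f (w i), i, rfl⟩, ?_,
    fun k => Subtype.val ⁻¹' (f '' {z | z (e k) = false})ᶜ, ?_, ?_⟩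
  · rintro ⟨_, i, rfl⟩; exact ⟨i, rfl⟩
  · intro k
    refine IsOpen.preimage continuous_subtype_val ?_
    refine (IsCompact.image ?_ hf).isClosed.isOpen_compl
    exact (isClosed_eq (continuous_apply (e k)) continuous_const).isCompact
  · intro i k
    simp only [Set.mem_preimage, Set.mem_compl_iff, hfi.mem_set_image, Set.mem_ofPred_eq, w,
      decide_eq_false_iff_not, not_not]
    constructor
    · rintro ⟨k', h1, h2⟩; rwa [← he h1]
    · intro h; exact ⟨k, rfl, h⟩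

/-- If index sets meeting every point always see three colours of `col`, then P fails. -/
lemma not_polarized_of {ι κ : Type} [Countable κ] (c : ι → κ → Prop)
    (h0 : ∀ k, ∃ i, ¬ c i k) (h1 : ∀ F : Set ι, F.Finite → ∃ k, ∀ i ∈ F, c i k)
    {m : ℕ} (hm : 0 < m) (col : κ → κ → Fin m)
    (h3 : ∀ N₁ N₂ : Set κ, (∀ i, ∃ k ∈ N₁, c i k) → (∀ i, ∃ k ∈ N₂, c i k) →
      ∃ a₁ ∈ N₁, ∃ b₁ ∈ N₂, ∃ a₂ ∈ N₁, ∃ b₂ ∈ N₂, ∃ a₃ ∈ N₁, ∃ b₃ ∈ N₂,
        col a₁ b₁ ≠ col a₂ b₂ ∧ col a₁ b₁ ≠ col a₃ b₃ ∧ col a₂ b₂ ≠ col a₃ b₃) :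
    ∃ X : Set ℝ, ¬ Polarized X ∧ #X ≤ #ι := by
  classical
  obtain ⟨X, φ, hφ, O, hO, hc⟩ := exists_realisation c
  refine ⟨X, ?_, Cardinal.mk_le_of_surjective hφ⟩
  intro HP
  have hU : IsOmegaCover X (Set.range O) := by
    refine ⟨by rintro _ ⟨k, rfl⟩; exact hO k, ?_, ?_⟩
    · rintro ⟨k, hk⟩
      obtain ⟨i, hi⟩ := h0 k
      exact hi ((hc i k).1 (hk ▸ Set.mem_univ _))
    · intro F hF
      obtain ⟨ψ, hψ⟩ := hφ.hasRightInverse
      obtain ⟨k, hk⟩ := h1 (ψ '' F) (hF.image ψ)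
      refine ⟨O k, ⟨k, rfl⟩, fun x hx => ?_⟩
      rw [← hψ x]
      exact (hc _ k).2 (hk _ ⟨x, hx, rfl⟩)
  have hν : ∀ w : Set.range O, ∃ k, O k = w.1 := fun w => w.2
  choose ν hν using hν
  obtain ⟨V₁, V₂, s1, s2, c1, c2, hlt⟩ := HP m hm _ _ hU hU (fun z => col (ν z.1) (ν z.2))
  have key : ∀ V : Set (Set X), V ⊆ Set.range O → IsOmegaCover X V →
      ∀ i, ∃ k ∈ ν '' {w | w.1 ∈ V}, c i k := by
    intro V hV hV2 i
    obtain ⟨w, hw, hw2⟩ := hV2.2.2 {φ i} (Set.finite_singleton _)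
    refine ⟨ν ⟨w, hV hw⟩, ⟨⟨w, hV hw⟩, hw, rfl⟩, (hc i _).1 ?_⟩
    rw [hν]
    exact hw2 rfl
  obtain ⟨_, ⟨a₁, ha₁, rfl⟩, _, ⟨b₁, hb₁, rfl⟩, _, ⟨a₂, ha₂, rfl⟩, _, ⟨b₂, hb₂, rfl⟩, _,
    ⟨a₃, ha₃, rfl⟩, _, ⟨b₃, hb₃, rfl⟩, n1, n2, n3⟩ := h3 _ _ (key V₁ s1 c1) (key V₂ s2 c2)
  have hsub : ({col (ν a₁) (ν b₁), col (ν a₂) (ν b₂), col (ν a₃) (ν b₃)} : Set (Fin m)) ⊆
      (fun z : Set.range O × Set.range O => col (ν z.1) (ν z.2)) ''
        {p | p.1.1 ∈ V₁ ∧ p.2.1 ∈ V₂} := by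
    rintro _ (rfl | rfl | rfl)
    · exact ⟨(a₁, b₁), ⟨ha₁, hb₁⟩, rfl⟩
    · exact ⟨(a₂, b₂), ⟨ha₂, hb₂⟩, rfl⟩
    · exact ⟨(a₃, b₃), ⟨ha₃, hb₃⟩, rfl⟩
  have h4 := Set.ncard_le_ncard hsub (Set.toFinite _)
  rw [Set.ncard_eq_three.2 ⟨_, _, _, n1, n2, n3, rfl⟩] at h4
  omega

theorem exists_le_u : ∃ X : Set ℝ, ¬ Polarized X ∧ #X ≤ ultrafilterNumber := by
  classical
  have hne : {c | ∃ B : Set (Set ℕ), (∃ W : Ultrafilter ℕ, (∀ n : ℕ, {n} ∉ W) ∧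
      (∀ b ∈ B, b ∈ W) ∧ ∀ a ∈ W, ∃ b ∈ B, b ⊆ a) ∧ #B = c}.Nonempty :=
    ⟨_, {b | b ∈ hyperfilter ℕ}, ⟨hyperfilter ℕ,
      fun n => (Set.finite_singleton n).notMem_hyperfilter, fun b hb => hb,
      fun a ha => ⟨a, ha, le_rfl⟩⟩, rfl⟩
  obtain ⟨B, ⟨W, hW, hBW, hB⟩, hc⟩ := csInf_mem hne
  have hc' : #B = ultrafilterNumber := hc
  rw [← hc']
  have hIci : ∀ n : ℕ, Set.Ioi n ∈ W := by
    intro n
    have : (Set.Iic n) ∉ W := by
      intro h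
      obtain ⟨x, -, hx⟩ := (Ultrafilter.finite_biUnion_mem_iff (f := W) (is := Set.Iic n)
        (s := fun i => ({i} : Set ℕ)) (Set.finite_Iic n)).1 (by rwa [Set.biUnion_of_singleton])
      exact hW x hx
    have h2 := Ultrafilter.compl_mem_iff_notMem.2 this
    rwa [Set.compl_Iic] at h2
  refine not_polarized_of (ι := B) (κ := ℕ) (fun b k => k ∈ b.1) ?_ ?_ (m := 3) (by norm_num)
    (fun a b => if a < b then 0 else if a = b then 1 else 2) ?_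
  · intro k
    obtain ⟨b, hb, hb2⟩ := hB _ (hIci k)
    exact ⟨⟨b, hb⟩, fun h => lt_irrefl k (hb2 h)⟩
  · intro F hF
    have : (⋂ b ∈ F, b.1) ∈ (W : Filter ℕ) := (Filter.biInter_mem hF).2 (fun b _ => hBW _ b.2)
    obtain ⟨k, hk⟩ := Filter.nonempty_of_mem this
    exact ⟨k, fun b hb => Set.mem_iInter₂.1 hk b hb⟩
  · have key : ∀ N : Set ℕ, (∀ i : B, ∃ k ∈ N, k ∈ i.1) → N ∈ W := by
      intro N hN
      by_contra h
      obtain ⟨b, hb, hb2⟩ := hB _ (Ultrafilter.compl_mem_iff_notMem.2 h)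
      obtain ⟨k, hk, hk2⟩ := hN ⟨b, hb⟩
      exact hb2 hk2 hk
    intro N₁ N₂ h1 h2
    have h3 : N₁ ∩ N₂ ∈ (W : Filter ℕ) := Filter.inter_mem (key _ h1) (key _ h2)
    obtain ⟨a, ha1, ha2⟩ := Filter.nonempty_of_mem h3
    obtain ⟨b, ⟨hb1, hb2⟩, hab⟩ := Filter.nonempty_of_mem (Filter.inter_mem h3 (hIci a))
    have hab' : a < b := hab
    refine ⟨a, ha1, b, hb2, a, ha1, a, ha2, b, hb1, a, ha2, ?_, ?_, ?_⟩
    · simp [hab']
    · simp [hab', hab'.ne', not_lt.2 hab'.le]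
    · simp [hab'.ne', not_lt.2 hab'.le]

theorem exists_le_d : ∃ X : Set ℝ, ¬ Polarized X ∧ #X ≤ dominatingNumber := by
  classical
  have hne : {c | ∃ D : Set (ℕ → ℕ), (∀ h : ℕ → ℕ, ∃ g ∈ D, ∀ᶠ n in Filter.atTop, h n ≤ g n) ∧
      #D = c}.Nonempty :=
    ⟨_, Set.univ, fun h => ⟨h, Set.mem_univ _, Filter.Eventually.of_forall (fun _ => le_rfl)⟩, rfl⟩
  obtain ⟨D, hD, hc⟩ := csInf_mem hne
  have hc' : #D = dominatingNumber := hc
  have hinf : Infinite D := by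
    by_contra h
    have hfin : D.Finite := Set.finite_coe_iff.1 (not_infinite_iff_finite.1 h)
    obtain ⟨g, hg, hg2⟩ := hD (fun n => hfin.toFinset.sup (fun g => g n) + 1)
    obtain ⟨n, hn⟩ := hg2.exists
    have : g n ≤ hfin.toFinset.sup (fun g => g n) :=
      Finset.le_sup (f := fun g : ℕ → ℕ => g n) (hfin.mem_toFinset.2 hg)
    omega
  have hcard : #(D × ℕ) = dominatingNumber := by
    rw [Cardinal.mk_prod, Cardinal.lift_id, Cardinal.lift_id, Cardinal.mk_nat, ← hc']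
    exact Cardinal.mul_aleph0_eq (Cardinal.aleph0_le_mk D)
  rw [← hcard]
  refine not_polarized_of (ι := D × ℕ) (κ := ℕ × ℕ)
    (fun i k => i.2 ≤ k.1 ∧ i.1.1 k.1 ≤ k.2) ?_ ?_ (m := 3) (by norm_num)
    (fun a b => if a.1 < b.1 then (if a.2 < b.2 then 0 else 1) else 2) ?_
  · intro k
    obtain ⟨g⟩ : Nonempty D := inferInstance
    exact ⟨(g, k.1 + 1), fun h => by have := h.1; simp at this⟩
  · intro F hF
    refine ⟨(hF.toFinset.sup (fun i => i.2),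
      hF.toFinset.sup (fun i => i.1.1 (hF.toFinset.sup (fun i => i.2)))), fun i hi => ⟨?_, ?_⟩⟩
    · exact Finset.le_sup (f := fun i : D × ℕ => i.2) (hF.mem_toFinset.2 hi)
    · exact Finset.le_sup (f := fun i : D × ℕ => i.1.1 (hF.toFinset.sup (fun i => i.2)))
        (hF.mem_toFinset.2 hi)
  · have key : ∀ N : Set (ℕ × ℕ), (∀ i : D × ℕ, ∃ k ∈ N, i.2 ≤ k.1 ∧ i.1.1 k.1 ≤ k.2) →
        ∀ n₀, ∃ n, n₀ ≤ n ∧ ∀ m₀, ∃ m, m₀ ≤ m ∧ (n, m) ∈ N := by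
      intro N hN n₀
      by_contra H
      push Not at H
      have H' : ∀ n, ∃ m₀, n₀ ≤ n → ∀ m, m₀ ≤ m → (n, m) ∉ N := by
        intro n
        by_cases hn : n₀ ≤ n
        · obtain ⟨m₀, hm₀⟩ := H n hn
          exact ⟨m₀, fun _ => hm₀⟩
        · exact ⟨0, fun h => absurd h hn⟩
      choose h hh using H'
      obtain ⟨g, hg, hg2⟩ := hD h
      obtain ⟨n₁, hn₁⟩ := Filter.eventually_atTop.1 hg2
      obtain ⟨k, hk, hk1, hk2⟩ := hN (⟨g, hg⟩, max n₀ n₁)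
      exact hh k.1 ((le_max_left _ _).trans hk1) k.2
        ((hn₁ k.1 ((le_max_right _ _).trans hk1)).trans hk2) hk
    intro N₁ N₂ h1 h2
    obtain ⟨n, -, hn⟩ := key N₁ h1 0
    obtain ⟨n', hnn', hn'⟩ := key N₂ h2 (n + 1)
    obtain ⟨n'', hn'n'', hn''⟩ := key N₁ h1 n'
    obtain ⟨m₁, -, hm₁⟩ := hn 0
    obtain ⟨m₂, h12, hm₂⟩ := hn' (m₁ + 1)
    obtain ⟨m₃, h23, hm₃⟩ := hn m₂
    obtain ⟨m₄, -, hm₄⟩ := hn'' 0
    have e1 : n < n' := hnn'
    have e2 : m₁ < m₂ := h12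
    refine ⟨_, hm₁, _, hm₂, _, hm₃, _, hm₂, _, hm₄, _, hm₂, ?_, ?_, ?_⟩
    · simp [e1, e2, not_lt.2 h23]
    · simp [e1, e2, not_lt.2 hn'n'']
    · simp [e1, not_lt.2 h23, not_lt.2 hn'n'']

theorem nonPolarized_eq : nonPolarized = min dominatingNumber ultrafilterNumber := by
  obtain ⟨X₁, h₁, h₁'⟩ := exists_le_d
  obtain ⟨X₂, h₂, h₂'⟩ := exists_le_u
  refine le_antisymm (le_min (le_trans (csInf_le' ⟨X₁, h₁, rfl⟩) h₁')
    (le_trans (csInf_le' ⟨X₂, h₂, rfl⟩) h₂')) ?_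
  by_contra H
  rw [not_le, lt_min_iff] at H
  have hne : {c | ∃ X : Set ℝ, ¬ Polarized X ∧ #X = c}.Nonempty := ⟨_, X₁, h₁, rfl⟩
  obtain ⟨X, hX, hc⟩ := csInf_mem hne
  have hc' : #X = nonPolarized := hc
  exact hX (polarized_of_sel (sel_of_lt (hc' ▸ H.1) (hc' ▸ H.2)))

end Pool.Agent.P.MP_7b7e09_gt
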