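import Pool.Agent.P.MP_7b7e09_gt.Defs

/-!
Core combinatorics for the polarized partition property: two ultrafilters of omega-covers give two
colours, and a block selection property gives the monochromatic-up-to-two-colours rectangle.
-/

open Filter Set Cardinal

namespace Pool.Agent.P.MP_7b7e09_gt

lemma exists_enum {X : Set ℝ} {U : Set (Set X)} (hU : IsOmegaCover X U) :
    ∃ u : ℕ → U, ∀ F : Set X, F.Finite → ∃ n, F ⊆ (u n).1 := by
  classical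
  have h1 : ∀ s : ℕ, ∃ T : Set U, T.Countable ∧ ∀ x : Fin s → X, ∃ w ∈ T, ∀ i, x i ∈ w.1 := by
    intro s
    obtain ⟨T, hT, hT2⟩ := TopologicalSpace.isOpen_iUnion_countable
      (fun w : U => Set.pi Set.univ (fun _ : Fin s => w.1))
      (fun w => isOpen_set_pi Set.finite_univ (fun _ _ => hU.1 w.1 w.2))
    refine ⟨T, hT, fun x => ?_⟩
    obtain ⟨w, hw, hw2⟩ := hU.2.2 (Set.range x) (Set.finite_range x)
    have : x ∈ ⋃ w : U, Set.pi Set.univ (fun _ : Fin s => w.1) :=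
      Set.mem_iUnion.2 ⟨⟨w, hw⟩, fun i _ => hw2 ⟨i, rfl⟩⟩
    rw [← hT2] at this
    simp only [Set.mem_iUnion] at this
    obtain ⟨w', hw', hx⟩ := this
    exact ⟨w', hw', fun i => hx i (Set.mem_univ i)⟩
  choose T hTc hT using h1
  have hc : (⋃ s, T s).Countable := Set.countable_iUnion hTc
  have hne : (⋃ s, T s).Nonempty := by
    obtain ⟨w, hw, -⟩ := hT 0 (fun i => i.elim0)
    exact ⟨w, Set.mem_iUnion.2 ⟨0, hw⟩⟩
  obtain ⟨u, hu⟩ := hc.exists_eq_range hne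
  refine ⟨u, fun F hF => ?_⟩
  obtain ⟨s, x, -, hx⟩ := hF.fin_param
  obtain ⟨w, hw, hw2⟩ := hT s x
  have : w ∈ Set.range u := hu ▸ Set.mem_iUnion.2 ⟨s, hw⟩
  obtain ⟨n, rfl⟩ := this
  refine ⟨n, ?_⟩
  rw [← hx]
  rintro _ ⟨i, rfl⟩
  exact hw2 i

lemma exists_ultra {α : Type*} (u : ℕ → Set α) (hu0 : ∀ n, u n ≠ Set.univ)
    (hu : ∀ F : Set α, F.Finite → ∃ n, F ⊆ u n) :
    ∃ W : Ultrafilter ℕ, (∀ F : Set α, F.Finite → {n | F ⊆ u n} ∈ W) ∧ ∀ p, Set.Ici p ∈ W := by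
  let Φ : Filter ℕ := ⨅ F : {F : Set α // F.Finite}, 𝓟 {n | F.1 ⊆ u n}
  have : Nonempty {F : Set α // F.Finite} := ⟨⟨∅, Set.finite_empty⟩⟩
  have hΦ : Φ.NeBot := by
    refine Filter.iInf_neBot_of_directed' ?_ ?_
    · intro a b
      refine ⟨⟨a.1 ∪ b.1, a.2.union b.2⟩, ?_, ?_⟩
      · exact Filter.principal_mono.2 (fun n hn => Set.Subset.trans Set.subset_union_left hn)
      · exact Filter.principal_mono.2 (fun n hn => Set.Subset.trans Set.subset_union_right hn)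
    · intro F
      exact Filter.principal_neBot_iff.2 (hu F.1 F.2)
  let W : Ultrafilter ℕ := Ultrafilter.of Φ
  have hW : ∀ F : Set α, F.Finite → {n | F ⊆ u n} ∈ W := by
    intro F hF
    exact Ultrafilter.of_le Φ (Filter.mem_iInf_of_mem ⟨F, hF⟩ (Filter.mem_principal_self _))
  refine ⟨W, hW, fun p => ?_⟩
  have hx : ∀ n, ∃ x, x ∉ u n := fun n => (Set.ne_univ_iff_exists_notMem _).1 (hu0 n)
  choose x hx using hx
  refine Filter.mem_of_superset (hW (x '' Set.Iio p) ((Set.finite_Iio p).image x)) ?_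
  intro n hn
  by_contra h
  have h' : n < p := not_le.1 (fun h2 => h h2)
  exact hx n (hn ⟨n, h', rfl⟩)

lemma ultra_colour {k : ℕ} (W : Ultrafilter ℕ) (g : ℕ → Fin k) : ∃ i, {n | g n = i} ∈ W := by
  obtain ⟨i, hi⟩ := Ultrafilter.eq_pure_of_finite (W.map g)
  refine ⟨i, ?_⟩
  have : ({i} : Set (Fin k)) ∈ W.map g := by rw [hi]; exact Ultrafilter.mem_pure.2 rfl
  exact this

lemma two_colours {k : ℕ} (W₁ W₂ : Ultrafilter ℕ) (f : ℕ → ℕ → Fin k) :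
    ∃ i j : Fin k, ∃ A B : ℕ → Set ℕ, Antitone A ∧ Antitone B ∧ (∀ p, A p ∈ W₁) ∧
      (∀ p, B p ∈ W₂) ∧
      ∀ p q n m, n ∈ A p → m ∈ B q → (m < p → f n m = j) ∧ (n < q → f n m = i) := by
  choose c hc using fun n => ultra_colour W₂ (fun m => f n m)
  choose d hd using fun m => ultra_colour W₁ (fun n => f n m)
  obtain ⟨i, hi⟩ := ultra_colour W₁ c
  obtain ⟨j, hj⟩ := ultra_colour W₂ d
  refine ⟨i, j, fun p => {n | c n = i ∧ ∀ m ∈ Set.Iio p, f n m = d m},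
    fun q => {m | d m = j ∧ ∀ n ∈ Set.Iio q, f n m = c n}, ?_, ?_, ?_, ?_, ?_⟩
  · intro p q hpq n hn
    exact ⟨hn.1, fun m hm => hn.2 m (lt_of_lt_of_le hm hpq)⟩
  · intro p q hpq n hn
    exact ⟨hn.1, fun m hm => hn.2 m (lt_of_lt_of_le hm hpq)⟩
  · intro p
    have h2 : (⋂ m ∈ Set.Iio p, {n | f n m = d m}) ∈ (W₁ : Filter ℕ) :=
      (Filter.biInter_mem (Set.finite_Iio p)).2 (fun m _ => hd m)
    refine Filter.mem_of_superset (Filter.inter_mem hi h2) ?_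
    rintro n ⟨h3, h4⟩
    exact ⟨h3, fun m hm => Set.mem_iInter₂.1 h4 m hm⟩
  · intro p
    have h2 : (⋂ n ∈ Set.Iio p, {m | f n m = c n}) ∈ (W₂ : Filter ℕ) :=
      (Filter.biInter_mem (Set.finite_Iio p)).2 (fun m _ => hc m)
    refine Filter.mem_of_superset (Filter.inter_mem hj h2) ?_
    rintro n ⟨h3, h4⟩
    exact ⟨h3, fun m hm => Set.mem_iInter₂.1 h4 m hm⟩
  · intro p q n m hn hm
    exact ⟨fun h => (hn.2 m h).trans hm.1, fun h => (hm.2 n h).trans hn.1⟩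

/-- The block `[p, q)` contains an index in `A p` whose set contains `E`. -/
def Hit {α : Type*} (u : ℕ → Set α) (A : ℕ → Set ℕ) (E : Set α) (p q : ℕ) : Prop :=
  ∃ n, p ≤ n ∧ n < q ∧ n ∈ A p ∧ E ⊆ u n

lemma Hit.mono {α : Type*} {u : ℕ → Set α} {A : ℕ → Set ℕ} (hA : Antitone A) {E E' : Set α}
    {p q p' q' : ℕ} (h : Hit u A E p q) (hE : E' ⊆ E) (hp : p' ≤ p) (hq : q ≤ q') :
    Hit u A E' p' q' := by
  obtain ⟨n, h1, h2, h3, h4⟩ := h
  exact ⟨n, hp.trans h1, h2.trans_le hq, hA hp h3, hE.trans h4⟩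

/-- Block selection property. -/
def Sel (X : Set ℝ) : Prop :=
  ∀ (u v : ℕ → Set X) (A B : ℕ → Set ℕ), (∀ n, IsOpen (u n)) → (∀ n, IsOpen (v n)) →
    Antitone A → Antitone B →
    (∀ E : Set X, E.Finite → ∀ p, ∃ q, Hit u A E p q) →
    (∀ E : Set X, E.Finite → ∀ p, ∃ q, Hit v B E p q) →
    (∀ n, u n ≠ Set.univ) →
    ∃ p : ℕ → ℕ, Monotone p ∧ ∃ J : Set ℕ, ∀ E : Set X, E.Finite →
      (∃ i ∈ J, Hit u A E (p i) (p (i + 1))) ∧ (∃ i ∉ J, Hit v B E (p i) (p (i + 1)))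

lemma hit_of_ultra {α : Type*} {u : ℕ → Set α} {A : ℕ → Set ℕ} {W : Ultrafilter ℕ}
    (hW : ∀ F : Set α, F.Finite → {n | F ⊆ u n} ∈ W) (hW' : ∀ p, Set.Ici p ∈ W)
    (hA : ∀ p, A p ∈ W) (E : Set α) (hE : E.Finite) (p : ℕ) : ∃ q, Hit u A E p q := by
  have : Set.Ici p ∩ (A p ∩ {n | E ⊆ u n}) ∈ (W : Filter ℕ) :=
    Filter.inter_mem (hW' p) (Filter.inter_mem (hA p) (hW E hE))
  obtain ⟨n, h1, h2, h3⟩ := Filter.nonempty_of_mem this
  exact ⟨n + 1, n, h1, Nat.lt_succ_self n, h2, h3⟩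

theorem polarized_of_sel {X : Set ℝ} (H : Sel X) : Polarized X := by
  classical
  intro k _ U₁ U₂ hU₁ hU₂ f
  obtain ⟨u, hu⟩ := exists_enum hU₁
  obtain ⟨v, hv⟩ := exists_enum hU₂
  have hu0 : ∀ n, (u n).1 ≠ Set.univ := fun n h => hU₁.2.1 (h ▸ (u n).2)
  have hv0 : ∀ n, (v n).1 ≠ Set.univ := fun n h => hU₂.2.1 (h ▸ (v n).2)
  obtain ⟨W₁, hW₁, hW₁'⟩ := exists_ultra (fun n => (u n).1) hu0 hu
  obtain ⟨W₂, hW₂, hW₂'⟩ := exists_ultra (fun n => (v n).1) hv0 hv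
  obtain ⟨i, j, A, B, hA, hB, hAW, hBW, hf⟩ := two_colours W₁ W₂ (fun n m => f (u n, v m))
  obtain ⟨p, hp, J, hJ⟩ := H (fun n => (u n).1) (fun n => (v n).1) A B
    (fun n => hU₁.1 _ (u n).2) (fun n => hU₂.1 _ (v n).2) hA hB
    (hit_of_ultra hW₁ hW₁' hAW) (hit_of_ultra hW₂ hW₂' hBW) hu0
  let V₁ : Set (Set X) := {w | ∃ n, w = (u n).1 ∧ ∃ s ∈ J, p s ≤ n ∧ n < p (s + 1) ∧ n ∈ A (p s)}
  let V₂ : Set (Set X) := {w | ∃ n, w = (v n).1 ∧ ∃ s ∉ J, p s ≤ n ∧ n < p (s + 1) ∧ n ∈ B (p s)}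
  have h1 : V₁ ⊆ U₁ := by rintro _ ⟨n, rfl, -⟩; exact (u n).2
  have h2 : V₂ ⊆ U₂ := by rintro _ ⟨n, rfl, -⟩; exact (v n).2
  refine ⟨V₁, V₂, h1, h2, ⟨fun w hw => hU₁.1 w (h1 hw), fun h => hU₁.2.1 (h1 h), ?_⟩,
    ⟨fun w hw => hU₂.1 w (h2 hw), fun h => hU₂.2.1 (h2 h), ?_⟩, ?_⟩
  · intro E hE
    obtain ⟨s, hs, n, a1, a2, a3, a4⟩ := (hJ E hE).1
    exact ⟨_, ⟨n, rfl, s, hs, a1, a2, a3⟩, a4⟩
  · intro E hE
    obtain ⟨s, hs, n, a1, a2, a3, a4⟩ := (hJ E hE).2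
    exact ⟨_, ⟨n, rfl, s, hs, a1, a2, a3⟩, a4⟩
  · have hsub : f '' {z : U₁ × U₂ | z.1.1 ∈ V₁ ∧ z.2.1 ∈ V₂} ⊆ {i, j} := by
      rintro _ ⟨⟨a, b⟩, ⟨⟨n, hn, s, hs, a1, a2, a3⟩, ⟨m, hm, t, ht, b1, b2, b3⟩⟩, rfl⟩
      have ha : a = u n := Subtype.ext hn
      have hb : b = v m := Subtype.ext hm
      subst ha hb
      have hst : s ≠ t := fun h => ht (h ▸ hs)
      rcases lt_or_gt_of_ne hst with h | h
      · left
        exact (hf _ _ n m a3 b3).2 (a2.trans_le (hp (Nat.succ_le_of_lt h)))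
      · right
        exact (hf _ _ n m a3 b3).1 (b2.trans_le (hp (Nat.succ_le_of_lt h)))
    have h3 := Set.ncard_le_ncard hsub (Set.toFinite _)
    have h4 : ({i, j} : Set (Fin k)).ncard ≤ 2 := by
      have := Set.ncard_insert_le i ({j} : Set (Fin k))
      rw [Set.ncard_singleton] at this
      exact this
    omega

lemma hit_unif {X : Set ℝ} (hX : IsCompact X) {u : ℕ → Set X} {A : ℕ → Set ℕ}
    (hu : ∀ n, IsOpen (u n)) (h : ∀ E : Set X, E.Finite → ∀ p, ∃ q, Hit u A E p q) (s p : ℕ) :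
    ∃ q, ∀ x : Fin s → X, Hit u A (Set.range x) p q := by
  classical
  have : CompactSpace X := isCompact_iff_compactSpace.1 hX
  let O : ℕ → Set (Fin s → X) := fun q => {x | Hit u A (Set.range x) p q}
  have hO : ∀ q, IsOpen (O q) := by
    intro q
    have : O q = ⋃ n ∈ {n | p ≤ n ∧ n < q ∧ n ∈ A p}, Set.pi Set.univ (fun _ : Fin s => u n) := by
      ext x
      simp only [O, Hit, Set.mem_ofPred_eq, Set.mem_iUnion, Set.mem_pi, Set.mem_univ, true_imp_iff,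
        Set.range_subset_iff, exists_prop]
      constructor
      · rintro ⟨n, a, b, c, d⟩; exact ⟨n, ⟨a, b, c⟩, d⟩
      · rintro ⟨n, ⟨a, b, c⟩, d⟩; exact ⟨n, a, b, c, d⟩
    rw [this]
    exact isOpen_biUnion (fun n _ => isOpen_set_pi Set.finite_univ (fun _ _ => hu n))
  have hmono : Monotone O := by
    rintro q q' hq x ⟨n, a, b, c, d⟩
    exact ⟨n, a, b.trans_le hq, c, d⟩
  obtain ⟨q, hq⟩ := (isCompact_univ (X := Fin s → X)).elim_directed_cover O hO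
    (fun x _ => Set.mem_iUnion.2 (h _ (Set.finite_range x) p)) hmono.directed_le
  exact ⟨q, fun x => hq (Set.mem_univ x)⟩

theorem sel_of_isCompact {X : Set ℝ} (hX : IsCompact X) : Sel X := by
  intro u v A B hu hv hA hB h1 h2 hu0
  choose g hg using hit_unif hX hu h1
  choose g' hg' using hit_unif hX hv h2
  let p : ℕ → ℕ := fun i => Nat.rec 0 (fun s r => max r (max (g s r) (g' s r))) i
  have hp : ∀ s, p (s + 1) = max (p s) (max (g s (p s)) (g' s (p s))) := fun s => rfl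
  obtain ⟨x₀, -⟩ := (Set.ne_univ_iff_exists_notMem _).1 (hu0 0)
  have key : ∀ E : Set X, E.Finite → ∃ s₀, ∀ s ≥ s₀, ∃ x : Fin s → X, E ⊆ Set.range x := by
    intro E hE
    obtain ⟨s₀, y, -, hy⟩ := hE.fin_param
    refine ⟨s₀, fun s hs => ⟨fun i => if h : i.1 < s₀ then y ⟨i.1, h⟩ else x₀, ?_⟩⟩
    rw [← hy]
    rintro _ ⟨i, rfl⟩
    exact ⟨⟨i.1, lt_of_lt_of_le i.2 hs⟩, by simp⟩
  refine ⟨p, monotone_nat_of_le_succ (fun s => by rw [hp]; exact le_max_left _ _),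
    {i | Even i}, fun E hE => ?_⟩
  obtain ⟨s₀, hs₀⟩ := key E hE
  constructor
  · obtain ⟨x, hx⟩ := hs₀ (2 * s₀) (by omega)
    refine ⟨2 * s₀, even_two_mul s₀, (hg (2 * s₀) (p (2 * s₀)) x).mono hA hx le_rfl ?_⟩
    rw [hp]; exact le_max_of_le_right (le_max_left _ _)
  · obtain ⟨x, hx⟩ := hs₀ (2 * s₀ + 1) (by omega)
    refine ⟨2 * s₀ + 1, by simp, (hg' (2 * s₀ + 1) (p (2 * s₀ + 1)) x).mono hB hx le_rfl ?_⟩
    rw [hp (2 * s₀ + 1)]; exact le_max_of_le_right (le_max_right _ _)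

theorem polarized_of_isCompact {X : Set ℝ} (hX : IsCompact X) : Polarized X :=
  polarized_of_sel (sel_of_isCompact hX)

open MeasureTheory in
theorem not_sOne_Icc : ¬ SOne (Set.Icc (0 : ℝ) 1) := by
  intro H
  let U : ℕ → Set (Set (Set.Icc (0 : ℝ) 1)) := fun n =>
    {u | IsOpen u ∧ volume (Subtype.val '' u) ≤ (2⁻¹ : ENNReal) ^ (n + 2)}
  have hhalf : ∑' n : ℕ, (2⁻¹ : ENNReal) ^ (n + 2) = 2⁻¹ := by
    simp_rw [pow_add]
    rw [ENNReal.tsum_mul_right, ENNReal.tsum_geometric, ENNReal.one_sub_inv_two, inv_inv, pow_two,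
      ← mul_assoc, ENNReal.mul_inv_cancel (by norm_num) (by norm_num), one_mul]
  have hlt : (2⁻¹ : ENNReal) < 1 := by norm_num
  have hU : ∀ n, IsOmegaCover (Set.Icc (0 : ℝ) 1) (U n) := by
    intro n
    refine ⟨fun u hu => hu.1, ?_, ?_⟩
    · rintro ⟨-, h⟩
      rw [Set.image_univ, Subtype.range_coe, Real.volume_Icc] at h
      have h2 : (2⁻¹ : ENNReal) ^ (n + 2) < 1 := pow_lt_one₀ (by simp) hlt (by omega)
      have h3 := h.trans_lt h2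
      simp at h3
    · intro F hF
      have h0 : volume (Subtype.val '' F) = 0 := (hF.image _).measure_zero _
      have hpos : volume (Subtype.val '' F) < (2⁻¹ : ENNReal) ^ (n + 2) := by
        rw [h0]
        exact ENNReal.pow_pos (by simp) _
      obtain ⟨O, hO1, hO2, hO3⟩ := Set.exists_isOpen_lt_of_lt _ _ hpos
      refine ⟨Subtype.val ⁻¹' O, ⟨hO2.preimage continuous_subtype_val, ?_⟩, ?_⟩
      · exact (measure_mono (Set.image_preimage_subset _ _)).trans hO3.le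
      · intro x hx
        exact hO1 ⟨x, hx, rfl⟩
  obtain ⟨u, hu, hc⟩ := H U hU
  have hcov : Set.Icc (0 : ℝ) 1 ⊆ ⋃ n, Subtype.val '' u n := by
    intro x hx
    obtain ⟨_, ⟨n, rfl⟩, hn⟩ := hc.2.2 {⟨x, hx⟩} (Set.finite_singleton _)
    exact Set.mem_iUnion.2 ⟨n, ⟨x, hx⟩, hn rfl, rfl⟩
  have h1 : volume (Set.Icc (0 : ℝ) 1) ≤ 2⁻¹ := by
    calc volume (Set.Icc (0 : ℝ) 1) ≤ volume (⋃ n, Subtype.val '' u n) := measure_mono hcov
      _ ≤ ∑' n, volume (Subtype.val '' u n) := measure_iUnion_le _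
      _ ≤ ∑' n : ℕ, (2⁻¹ : ENNReal) ^ (n + 2) := ENNReal.tsum_le_tsum (fun n => (hu n).2)
      _ = 2⁻¹ := hhalf
  have h2 := h1.trans_lt hlt
  rw [Real.volume_Icc] at h2
  simp at h2

end Pool.Agent.P.MP_7b7e09_gt
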