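import Mathlib

/-!
Definitions for problem MP_7b7e09_gt: omega-covers of a set of reals, the selection principle
S_1(Omega, Omega), the polarized partition property P, and the cardinals non(P), d and u.
-/

open Cardinal

namespace Pool.Agent.P.MP_7b7e09_gt

/-- `U` is an open omega-cover of the subspace `X` of the reals: its members are open subsets of
`X`, the whole space `X` is not a member, and every finite subset of `X` lies in some member. -/
def IsOmegaCover (X : Set ℝ) (U : Set (Set X)) : Prop :=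
  (∀ u ∈ U, IsOpen u) ∧ Set.univ ∉ U ∧ ∀ F : Set X, F.Finite → ∃ u ∈ U, F ⊆ u

/-- The selection principle S_1(Omega, Omega). -/
def SOne (X : Set ℝ) : Prop :=
  ∀ U : ℕ → Set (Set X), (∀ n, IsOmegaCover X (U n)) →
    ∃ u : ℕ → Set X, (∀ n, u n ∈ U n) ∧ IsOmegaCover X (Set.range u)

/-- The polarized partition property P: for every positive `k`, all omega-covers `U₁`, `U₂` and
every colouring of `U₁ × U₂` with `k` colours, there are omega-covers `V₁ ⊆ U₁`, `V₂ ⊆ U₂` such
that fewer than three colours occur on `V₁ × V₂`. -/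
def Polarized (X : Set ℝ) : Prop :=
  ∀ k : ℕ, 0 < k → ∀ U₁ U₂ : Set (Set X), IsOmegaCover X U₁ → IsOmegaCover X U₂ →
    ∀ f : U₁ × U₂ → Fin k, ∃ V₁ V₂ : Set (Set X), V₁ ⊆ U₁ ∧ V₂ ⊆ U₂ ∧
      IsOmegaCover X V₁ ∧ IsOmegaCover X V₂ ∧
      (f '' {p | p.1.1 ∈ V₁ ∧ p.2.1 ∈ V₂}).ncard < 3

/-- non(P): the least cardinality of a set of reals that fails P. -/
noncomputable def nonPolarized : Cardinal :=
  sInf {c | ∃ X : Set ℝ, ¬ Polarized X ∧ #X = c}

/-- The dominating number d: the least cardinality of a family `D` of functions `ℕ → ℕ` such that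
every function is eventually dominated by a member of `D`. -/
noncomputable def dominatingNumber : Cardinal :=
  sInf {c | ∃ D : Set (ℕ → ℕ), (∀ h : ℕ → ℕ, ∃ g ∈ D, ∀ᶠ n in Filter.atTop, h n ≤ g n) ∧ #D = c}

/-- The ultrafilter number u: the least cardinality of a base `B` of a nonprincipal ultrafilter
`W` on `ℕ`. -/
noncomputable def ultrafilterNumber : Cardinal :=
  sInf {c | ∃ B : Set (Set ℕ), (∃ W : Ultrafilter ℕ, (∀ n : ℕ, {n} ∉ W) ∧
    (∀ b ∈ B, b ∈ W) ∧ ∀ a ∈ W, ∃ b ∈ B, b ⊆ a) ∧ #B = c}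

end Pool.Agent.P.MP_7b7e09_gt
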